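import Mathlib
import Pool.Agent.H42.KSurj

namespace Pool.Agent.Results.MP_8a117e_lc.Full

open Cardinal

/-- There is a weakly order-preserving surjection from the set of reals `L` onto `K`. -/
def MapsOnto (L K : Set ℝ) : Prop := ∃ f : L → K, Monotone f ∧ Function.Surjective f

/-- `L` maps onto each of its (nonempty) suborders. -/
def StronglySurjective (L : Set ℝ) : Prop := ∀ K ⊆ L, K.Nonempty → MapsOnto L K

/-- `L` has size at least `κ` and maps onto each of its suborders of size `κ`. -/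
def KappaSurjective (κ : Cardinal.{0}) (L : Set ℝ) : Prop :=
  κ ≤ #L ∧ ∀ K ⊆ L, K.Nonempty → #K = κ → MapsOnto L K

theorem result (κ : Cardinal.{0}) (hκ : ℵ₀ < κ.ord.cof) (L : Set ℝ) (hL : #L = κ)
    (hs : KappaSurjective κ L) : StronglySurjective L := by
    intro K hKL hK
    have h0 : ℵ₀ < κ := hκ.trans_le (Ordinal.cof_ord_le κ)
    obtain ⟨f, f1, f2⟩ := Pool.Agent.H42.KSurj.main (L := L) (sm := fun s => #s < κ)
      (fun s t h c => (mk_le_mk_of_subset h).trans_lt c)
      (fun s h => (mk_iUnion_le _).trans_lt (mul_lt_of_lt h0.le (by simpa using h0)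
        (iSup_lt_of_lt_cof_ord (by simpa using hκ) h)))
      (fun s t a b => (mk_union_le _ _).trans_lt (add_lt_of_lt h0.le a b))
      (fun s h => (mk_le_one_iff_set_subsingleton.2 h).trans_lt (one_lt_aleph0.trans h0))
      (fun f s h => mk_image_le.trans_lt h) Subtype.val (fun a b h => h)
      (fun M hM => by
        have h1 : #(Subtype.val '' M) = κ := by
          rw [mk_image_eq Subtype.val_injective]
          exact le_antisymm (hL ▸ mk_set_le M) (not_lt.1 hM)
        have h2 : Subtype.val '' M ⊆ L := Subtype.coe_image_subset L M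
        obtain ⟨g, g1, g2⟩ := hs.2 _ h2 (Set.nonempty_coe_sort.1
          (mk_ne_zero_iff.1 (h1 ▸ (aleph0_pos.trans h0).ne'))) h1
        refine ⟨fun x => ⟨g x, h2 (g x).2⟩, fun a b h => g1 h, Set.ext fun y => ⟨?_, fun hy => ?_⟩⟩
        · rintro ⟨x, rfl⟩
          obtain ⟨z, z1, z2⟩ := (g x).2
          exact Set.mem_of_eq_of_mem (Subtype.ext z2.symm) z1
        · obtain ⟨x, hx⟩ := g2 ⟨y, y, hy, rfl⟩
          exact ⟨x, Subtype.ext (congrArg Subtype.val hx :)⟩)
      (by rw [mk_univ, hL]; exact lt_irrefl _) (K := Subtype.val ⁻¹' K)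
      (let ⟨x, hx⟩ := hK; ⟨⟨x, hKL hx⟩, hx⟩)
    have hf : ∀ x, (f x : ℝ) ∈ K := fun x =>
      show f x ∈ Subtype.val ⁻¹' K from f2 ▸ Set.mem_range_self x
    refine ⟨fun x => ⟨f x, hf x⟩, fun a b h => f1 h, fun y => ?_⟩
    obtain ⟨x, hx⟩ : (⟨y, hKL y.2⟩ : L) ∈ Set.range f := f2 ▸ y.2
    exact ⟨x, Subtype.ext (congrArg Subtype.val hx :)⟩

/-- The case asked about in Q1. -/
example (L : Set ℝ) (hL : #L = ℵ_ 2) (hs : KappaSurjective (ℵ_ 2) L) : StronglySurjective L := by
  refine result _ ?_ L hL hs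
  rw [show (2 : Ordinal.{0}) = 1 + 1 from one_add_one_eq_two.symm,
    (isRegular_aleph_add_one 1).cof_ord, ← aleph_zero, aleph_lt_aleph]
  simp

end Pool.Agent.Results.MP_8a117e_lc.Full
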